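import Pool.Agent.W723.BDL.Final

/-! Convergence in law along the coordinate axes. -/

namespace Pool.Agent.W723.BDL

set_option linter.unusedSectionVars false

open MeasureTheory Filter Topology Pool.Agent.W833.BD
open scoped ENNReal

variable {d : ℕ} [NeZero d]

/-- along the axes, the law only depends on the distance -/
lemma axis_law {μ : Measure (Om d)}
    (hS : ∀ (π : Equiv.Perm (Fin d)) (s : Fin d → ℤˣ), μ.map (Sp π s) = μ) (i : Fin d) (k : ℤ) :
    μ.map (fun g : Om d => (g (Pi.single i k) : ℝ) / eu (Pi.single i k : V d))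
      = μ.map (fun g : Om d => (g (Pi.single 0 |k|) : ℝ) / eu (Pi.single 0 |k| : V d)) := by
  obtain ⟨σ, hσ⟩ : ∃ σ : ℤˣ, (σ : ℤ) * |k| = k := by
    rcases le_total 0 k with hk | hk
    · exact ⟨1, by rw [abs_of_nonneg hk]; simp⟩
    · exact ⟨-1, by rw [abs_of_nonpos hk]; simp⟩
  have h1 : sp (Equiv.swap 0 i) (fun _ => σ) (Pi.single 0 |k| : V d) = Pi.single i k := by
    rw [sp_single]
    simp [hσ]
  have h2 : eu (Pi.single i k : V d) = eu (Pi.single 0 |k| : V d) := by
    rw [eu_single, eu_single]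
    push_cast
    rw [abs_abs]
  have hm : Measurable (fun g : Om d => (g (Pi.single 0 |k|) : ℝ) / eu (Pi.single 0 |k| : V d)) :=
    (measurable_eval _).div_const _
  conv_rhs => rw [← hS (Equiv.swap 0 i) (fun _ => σ)]
  rw [Measure.map_map hm (measurable_Sp _ _), h2]
  congr 1
  funext g
  show _ = ((Sp (Equiv.swap 0 i) (fun _ => σ) g) (Pi.single 0 |k|) : ℝ) / _
  show _ = (g (sp (Equiv.swap 0 i) (fun _ => σ) (Pi.single 0 |k| : V d)) : ℝ) / _
  rw [h1]

/-- Convergence in law along the union of the coordinate axes. -/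
theorem axes {μ : Measure (Om d)} (h : Nice μ) [IsProbabilityMeasure μ]
    (hS : ∀ (π : Equiv.Perm (Fin d)) (s : Fin d → ℤˣ), μ.map (Sp π s) = μ)
    [IsProbabilityMeasure (μ.map (fun g => U μ g 0))]
    (x : ℕ → V d) (hax : ∀ n, ∃ i k, x n = Pi.single i k)
    (hx : Tendsto (fun n => eu (x n)) atTop atTop) :
    TendstoInDistribution (fun (n : ℕ) (g : Om d) => (g (x n) : ℝ) / eu (x n)) atTop
      (fun r : ℝ => r) (fun _ => μ) (μ.map (fun g => U μ g 0)) := by
  choose i k hik using hax
  set x' : ℕ → V d := fun n => Pi.single 0 |k n| with hx'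
  have heu : ∀ n, eu (x' n) = eu (x n) := by
    intro n
    rw [hx', hik n, eu_single, eu_single]
    push_cast
    rw [abs_abs]
  have hlaw : ∀ n, μ.map (fun g : Om d => (g (x n) : ℝ) / eu (x n))
      = μ.map (fun g : Om d => (g (x' n) : ℝ) / eu (x' n)) := by
    intro n
    rw [hik n]
    exact axis_law hS (i n) (k n)
  have hx2 : Tendsto (fun n => eu (x' n)) atTop atTop := by simpa only [heu] using hx
  set θ : Fin d → ℝ := Pi.single 0 1 with hθ
  have hθ2 : ∀ j, Tendsto (fun n => (x' n j : ℝ) / eu (x' n)) atTop (𝓝 (θ j)) := by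
    intro j
    refine tendsto_const_nhds.congr' ?_
    filter_upwards [hx2.eventually_gt_atTop 0] with n hn
    by_cases hj : j = 0
    · subst hj
      have e1 : ((x' n 0 : ℤ) : ℝ) = eu (x' n) := by
        rw [hx', eu_single]
        simp
      rw [e1, div_self hn.ne', hθ]
      simp
    · rw [hθ, hx']
      simp [hj]
  have hc := conv_law h x' θ hx2 hθ2
  have hZ : (fun g => ∑ j, θ j * U μ g j) = fun g => U μ g 0 := by
    funext g
    rw [Finset.sum_eq_single 0]
    · simp [hθ]
    · intro j _ hj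
      simp [hθ, hj]
    · intro h0
      exact absurd (Finset.mem_univ _) h0
  have hXm : ∀ n, Measurable (fun g : Om d => (g (x n) : ℝ) / eu (x n)) := fun n =>
    (measurable_eval _).div_const _
  refine ⟨fun n => (hXm n).aemeasurable, measurable_id.aemeasurable, ?_⟩
  have ht := hc.tendsto
  have e2 : (⟨(μ.map (fun g => U μ g 0)).map (fun r : ℝ => r),
      Measure.isProbabilityMeasure_map measurable_id.aemeasurable⟩ : ProbabilityMeasure ℝ)
      = ⟨μ.map (fun g => ∑ j, θ j * U μ g j),
        Measure.isProbabilityMeasure_map hc.aemeasurable_limit⟩ := by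
    refine Subtype.ext ?_
    show (μ.map (fun g => U μ g 0)).map (fun r : ℝ => r) = μ.map (fun g => ∑ j, θ j * U μ g j)
    rw [hZ]
    exact Measure.map_id
  rw [e2]
  refine ht.congr fun n => Subtype.ext ?_
  exact (hlaw n).symm

end Pool.Agent.W723.BDL
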