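import Pool.Agent.H165R3.BPE

/-! The mean ergodic theorem in `L¹`. -/

namespace Pool.Agent.W723.BDL

open MeasureTheory Filter Topology

variable {B : Type*} [MeasurableSpace B] {m : Measure B} {T : B → B}

/-- averages -/
noncomputable def Am (T : B → B) (φ : B → ℝ) (n : ℕ) (x : B) : ℝ :=
  (n : ℝ)⁻¹ * ∑ k ∈ Finset.range n, φ (T^[k] x)

lemma int_comp (hT : MeasurePreserving T m m) {f : B → ℝ} (hf : AEStronglyMeasurable f m) :
    ∫ x, f (T x) ∂m = ∫ x, f x ∂m := by
  conv_rhs => rw [← hT.map_eq]
  rw [integral_map hT.measurable.aemeasurable (by rw [hT.map_eq]; exact hf)]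

lemma integrable_comp (hT : MeasurePreserving T m m) {f : B → ℝ} (hf : Integrable f m) :
    Integrable (fun x => f (T x)) m := hT.integrable_comp_of_integrable hf

lemma Am_int (hT : MeasurePreserving T m m) {φ : B → ℝ} (hφ : Integrable φ m) (n : ℕ) :
    Integrable (Am T φ n) m := by
  unfold Am
  exact (integrable_finsetSum _ fun k _ => integrable_comp (hT.iterate k) hφ).const_mul _

lemma Am_contr (hT : MeasurePreserving T m m) {φ : B → ℝ} (hφ : Integrable φ m) (n : ℕ) :
    ∫ x, |Am T φ n x| ∂m ≤ ∫ x, |φ x| ∂m := by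
  have h0 : 0 ≤ ∫ x, |φ x| ∂m := integral_nonneg fun x => abs_nonneg _
  have h1 : ∀ x, |Am T φ n x| ≤ (n : ℝ)⁻¹ * ∑ k ∈ Finset.range n, |φ (T^[k] x)| := by
    intro x
    unfold Am
    rw [abs_mul, abs_of_nonneg (by positivity : (0 : ℝ) ≤ (n : ℝ)⁻¹)]
    exact mul_le_mul_of_nonneg_left (Finset.abs_sum_le_sum_abs _ _) (by positivity)
  have h2 : ∀ k ∈ Finset.range n, Integrable (fun x => |φ (T^[k] x)|) m := fun k _ =>
    (integrable_comp (hT.iterate k) hφ).abs
  refine (integral_mono (Am_int hT hφ n).abs ((integrable_finsetSum _ h2).const_mul _) h1).trans ?_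
  rw [integral_const_mul, integral_finsetSum _ h2]
  have h3 : ∀ k ∈ Finset.range n, ∫ x, |φ (T^[k] x)| ∂m = ∫ x, |φ x| ∂m := fun k _ =>
    int_comp (hT.iterate k) (f := fun x => |φ x|) hφ.abs.aestronglyMeasurable
  rw [Finset.sum_congr rfl h3, Finset.sum_const, Finset.card_range, nsmul_eq_mul]
  rcases Nat.eq_zero_or_pos n with rfl | hn
  · simpa using h0
  · have : (n : ℝ) ≠ 0 := by positivity
    rw [inv_mul_cancel_left₀ this]

/-- truncation -/
noncomputable def tr (R : ℕ) (r : ℝ) : ℝ := max (-(R : ℝ)) (min r R)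

lemma abs_tr_le (R : ℕ) (r : ℝ) : |tr R r| ≤ R := by
  have hR : (0 : ℝ) ≤ R := Nat.cast_nonneg R
  unfold tr
  rw [abs_le]
  exact ⟨le_max_left _ _, max_le (by linarith) (min_le_right _ _)⟩

lemma tr_sub_le (R : ℕ) (r : ℝ) : |tr R r - r| ≤ |r| := by
  have hR : (0 : ℝ) ≤ R := Nat.cast_nonneg R
  unfold tr
  rcases le_total r R with h | h
  · rcases le_total (-(R : ℝ)) r with h' | h'
    · rw [min_eq_left h, max_eq_right h', sub_self, abs_zero]
      exact abs_nonneg _
    · rw [min_eq_left h, max_eq_left h', abs_of_nonneg (by linarith), abs_of_nonpos (by linarith)]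
      linarith
  · rw [min_eq_right h, max_eq_right (by linarith), abs_of_nonpos (by linarith),
      abs_of_nonneg (by linarith)]
    linarith

lemma tendsto_tr (r : ℝ) : Tendsto (fun R : ℕ => tr R r) atTop (𝓝 r) := by
  refine tendsto_const_nhds.congr' ?_
  obtain ⟨R0, hR0⟩ := exists_nat_ge |r|
  filter_upwards [eventually_ge_atTop R0] with R hR
  have h1 : |r| ≤ R := hR0.trans (by exact_mod_cast hR)
  rw [abs_le] at h1
  unfold tr
  rw [min_eq_left h1.2, max_eq_right h1.1]

lemma measurable_tr (R : ℕ) : Measurable (tr R) := by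
  unfold tr
  exact measurable_const.max (measurable_id.min measurable_const)

/-- The mean ergodic theorem in `L¹`. -/
theorem mean_erg [IsProbabilityMeasure m] (hT : MeasurePreserving T m m) {φ : B → ℝ}
    (hφm : Measurable φ) (hφ : Integrable φ m) :
    Tendsto (fun n : ℕ => ∫ x, |Am T φ n x - (m[φ | MeasurableSpace.invariants T]) x| ∂m) atTop
      (𝓝 0) := by
  have hle := MeasurableSpace.invariants_le T
  rw [Metric.tendsto_atTop]
  intro ε hε
  -- truncation
  have h1 : Tendsto (fun R : ℕ => ∫ x, |tr R (φ x) - φ x| ∂m) atTop (𝓝 0) := by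
    have : (0 : ℝ) = ∫ _, (0 : ℝ) ∂m := by simp
    rw [this]
    refine tendsto_integral_of_dominated_convergence (fun x => |φ x|)
      (fun R => (((measurable_tr R).comp hφm).sub hφm).abs.aestronglyMeasurable) hφ.abs ?_ ?_
    · intro R
      refine Eventually.of_forall fun x => ?_
      rw [Real.norm_eq_abs, abs_abs]
      exact tr_sub_le R _
    · refine Eventually.of_forall fun x => ?_
      have h := ((tendsto_tr (φ x)).sub_const (φ x)).abs
      simpa using h
  obtain ⟨R, hR⟩ := (h1.eventually (gt_mem_nhds (show (0 : ℝ) < ε / 4 by positivity))).exists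
  set ψ : B → ℝ := fun x => tr R (φ x) with hψ
  have hψm : Measurable ψ := (measurable_tr R).comp hφm
  have hψi : Integrable ψ m := Integrable.of_bound hψm.aestronglyMeasurable R
    (Eventually.of_forall fun x => by rw [Real.norm_eq_abs]; exact abs_tr_le R _)
  have h2 : Tendsto (fun n : ℕ => ∫ x, |Am T ψ n x - (m[ψ | MeasurableSpace.invariants T]) x| ∂m)
      atTop (𝓝 0) := by
    have : (0 : ℝ) = ∫ _, (0 : ℝ) ∂m := by simp
    rw [this]
    refine tendsto_integral_of_dominated_convergence
      (fun x => (R : ℝ) + |(m[ψ | MeasurableSpace.invariants T]) x|)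
      (fun n => ((Am_int hT hψi n).sub integrable_condExp).abs.aestronglyMeasurable)
      ((integrable_const _).add integrable_condExp.abs) ?_ ?_
    · intro n
      refine Eventually.of_forall fun x => ?_
      rw [Real.norm_eq_abs, abs_abs]
      refine (abs_sub _ _).trans (add_le_add ?_ le_rfl)
      unfold Am
      rw [abs_mul, abs_of_nonneg (by positivity : (0 : ℝ) ≤ (n : ℝ)⁻¹)]
      have h3 : |∑ k ∈ Finset.range n, ψ (T^[k] x)| ≤ n * R := by
        refine (Finset.abs_sum_le_sum_abs _ _).trans ?_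
        have := Finset.sum_le_card_nsmul (Finset.range n) (fun k => |ψ (T^[k] x)|) (R : ℝ)
          (fun k _ => abs_tr_le R _)
        simpa using this
      rcases Nat.eq_zero_or_pos n with rfl | hn
      · simp
      · have hn' : (n : ℝ) ≠ 0 := by positivity
        calc (n : ℝ)⁻¹ * |∑ k ∈ Finset.range n, ψ (T^[k] x)| ≤ (n : ℝ)⁻¹ * (n * R) :=
              mul_le_mul_of_nonneg_left h3 (by positivity)
          _ = R := by rw [inv_mul_cancel_left₀ hn']
    · have hb := H165R3.BPE.birkhoff hT ψ hψm R (fun x => abs_tr_le R _)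
      filter_upwards [hb] with x hx
      have h := (hx.sub_const ((m[ψ | MeasurableSpace.invariants T]) x)).abs
      simpa [Am] using h
  obtain ⟨N, hN⟩ := (Metric.tendsto_atTop.1 h2) (ε / 4) (by positivity)
  refine ⟨N, fun n hn => ?_⟩
  have h3 := hN n hn
  rw [Real.dist_eq, sub_zero, abs_of_nonneg (integral_nonneg fun x => abs_nonneg _)] at h3 ⊢
  have hdi : Integrable (fun x => φ x - ψ x) m := hφ.sub hψi
  have hd : ∫ x, |φ x - ψ x| ∂m < ε / 4 := by
    refine lt_of_le_of_lt (le_of_eq ?_) hR
    congr 1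
    funext x
    rw [abs_sub_comm]
  have h4 : ∫ x, |Am T (fun x => φ x - ψ x) n x| ∂m < ε / 4 :=
    lt_of_le_of_lt (Am_contr hT hdi n) hd
  have h5 : ∫ x, |(m[fun x => φ x - ψ x | MeasurableSpace.invariants T]) x| ∂m < ε / 4 :=
    lt_of_le_of_lt (integral_abs_condExp_le _) hd
  have h6 : (m[fun x => φ x - ψ x | MeasurableSpace.invariants T])
      =ᵐ[m] fun x => (m[φ | MeasurableSpace.invariants T]) x
        - (m[ψ | MeasurableSpace.invariants T]) x := condExp_sub hφ hψi _
  have h7 : ∫ x, |Am T φ n x - (m[φ | MeasurableSpace.invariants T]) x| ∂m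
      ≤ ∫ x, (|Am T (fun x => φ x - ψ x) n x|
        + |Am T ψ n x - (m[ψ | MeasurableSpace.invariants T]) x|
        + |(m[fun x => φ x - ψ x | MeasurableSpace.invariants T]) x|) ∂m := by
    refine integral_mono_ae ((Am_int hT hφ n).sub integrable_condExp).abs
      (((Am_int hT hdi n).abs.add ((Am_int hT hψi n).sub integrable_condExp).abs).add
        integrable_condExp.abs) ?_
    filter_upwards [h6] with x hx
    rw [hx]
    have e1 : Am T (fun x => φ x - ψ x) n x = Am T φ n x - Am T ψ n x := by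
      unfold Am
      rw [Finset.sum_sub_distrib, mul_sub]
    rw [e1]
    have e2 : Am T φ n x - (m[φ | MeasurableSpace.invariants T]) x
        = (Am T φ n x - Am T ψ n x) + (Am T ψ n x - (m[ψ | MeasurableSpace.invariants T]) x)
          - ((m[φ | MeasurableSpace.invariants T]) x - (m[ψ | MeasurableSpace.invariants T]) x) := by
      ring
    rw [e2]
    refine (abs_sub _ _).trans ?_
    have := abs_add_le (Am T φ n x - Am T ψ n x)
      (Am T ψ n x - (m[ψ | MeasurableSpace.invariants T]) x)
    linarith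
  have h8 : ∫ x, (|Am T (fun x => φ x - ψ x) n x|
        + |Am T ψ n x - (m[ψ | MeasurableSpace.invariants T]) x|
        + |(m[fun x => φ x - ψ x | MeasurableSpace.invariants T]) x|) ∂m
      = ∫ x, |Am T (fun x => φ x - ψ x) n x| ∂m
        + ∫ x, |Am T ψ n x - (m[ψ | MeasurableSpace.invariants T]) x| ∂m
        + ∫ x, |(m[fun x => φ x - ψ x | MeasurableSpace.invariants T]) x| ∂m := by
    have i1 := (Am_int hT hdi n).abs
    have i2 : Integrable (fun x => |Am T ψ n x - (m[ψ | MeasurableSpace.invariants T]) x|) m :=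
      ((Am_int hT hψi n).sub (integrable_condExp (μ := m) (f := ψ)
      (m := MeasurableSpace.invariants T))).abs
    have i3 := (integrable_condExp (μ := m) (f := fun x => φ x - ψ x)
      (m := MeasurableSpace.invariants T)).abs
    have i12 : Integrable (fun x => |Am T (fun x => φ x - ψ x) n x|
        + |Am T ψ n x - (m[ψ | MeasurableSpace.invariants T]) x|) m := i1.add i2
    rw [integral_add i12 i3, integral_add i1 i2]
  linarith

end Pool.Agent.W723.BDL
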