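import Pool.Agent.W723.BDL.Slope

/-! The symmetrised law: the law of the slope is symmetric, and no projection of it vanishes. -/

namespace Pool.Agent.W723.BDL

set_option linter.unusedSectionVars false

open MeasureTheory Filter Topology Pool.Agent.W833.BD
open scoped ENNReal

variable {d : ℕ} [NeZero d]

lemma sp_single (π : Equiv.Perm (Fin d)) (s : Fin d → ℤˣ) (i : Fin d) (v : ℤ) :
    sp π s (Pi.single i v) = Pi.single (π.symm i) ((s (π.symm i) : ℤ) * v) := by
  funext k
  simp only [sp, Equiv.coe_fn_mk, Pi.single_apply]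
  by_cases hk : k = π.symm i
  · subst hk
    simp
  · have : π k ≠ i := fun h => hk (by rw [← h]; simp)
    simp [hk, this]

lemma U_Sp {μ : Measure (Om d)} (h : Nice μ) (π : Equiv.Perm (Fin d)) (s : Fin d → ℤˣ)
    (hs : μ.map (Sp π s) = μ) (i : Fin d) :
    (fun g => U μ (Sp π s g) i) =ᵐ[μ] fun g => ((s (π.symm i) : ℤ) : ℝ) * U μ g (π.symm i) := by
  have hp := h.wstat.prob
  have hmp : MeasurePreserving (Sp π s) μ μ := ⟨measurable_Sp π s, hs⟩
  set j := π.symm i with hj
  set σ : ℤ := (s j : ℤ) with hσ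
  have hσ2 : σ.natAbs = 1 := by
    rcases Int.units_eq_one_or (s j) with h' | h' <;> simp [hσ, h']
  have hUT : Integrable (fun g => U μ (Sp π s g) i) μ := integrable_comp hmp (integrable_U μ i)
  have hUj : Integrable (fun g => (σ : ℝ) * U μ g j) μ := (integrable_U μ j).const_mul _
  refine ae_eq_of_int hUT hUj ?_
  have hlim : Tendsto (fun n : ℕ => Er μ i n / n + Er μ j n / n) atTop (𝓝 0) := by
    simpa using (Er_tendsto h i).add (Er_tendsto h j)
  refine le_zero_of hlim fun n hn => ?_
  have hn' : (0 : ℝ) < n := by exact_mod_cast hn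
  have i1 : Integrable (fun g => |((Sp π s g) (Pi.single i (n : ℤ)) : ℝ)
      - n * U μ (Sp π s g) i|) μ :=
    integrable_comp hmp (err_int h i (Pi.single i (n : ℤ)) n)
  have i2 : Integrable (fun g : Om d => |(g (Pi.single j (σ * n)) : ℝ)
      - ((σ * n : ℤ) : ℝ) * U μ g j|) μ := err_int h j _ _
  have hpt : ∀ g : Om d, n * |U μ (Sp π s g) i - σ * U μ g j|
      ≤ |((Sp π s g) (Pi.single i (n : ℤ)) : ℝ) - n * U μ (Sp π s g) i|
        + |(g (Pi.single j (σ * n)) : ℝ) - ((σ * n : ℤ) : ℝ) * U μ g j| := by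
    intro g
    have e1 : (Sp π s g) (Pi.single i (n : ℤ)) = g (Pi.single j (σ * n)) := by
      show g (sp π s (Pi.single i (n : ℤ))) = _
      rw [sp_single]
    rw [e1]
    have e3 : (n : ℝ) * |U μ (Sp π s g) i - σ * U μ g j|
        = |n * U μ (Sp π s g) i - n * (σ * U μ g j)| := by
      rw [← mul_sub, abs_mul, abs_of_pos hn']
    rw [e3]
    have e4 : (n : ℝ) * U μ (Sp π s g) i - n * (σ * U μ g j)
        = -((g (Pi.single j (σ * n)) : ℝ) - n * U μ (Sp π s g) i)
          + ((g (Pi.single j (σ * n)) : ℝ) - ((σ * n : ℤ) : ℝ) * U μ g j) := by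
      push_cast
      ring
    rw [e4]
    refine (abs_add_le _ _).trans (add_le_add ?_ le_rfl)
    rw [abs_neg]
  have hmain : n * ∫ g, |U μ (Sp π s g) i - σ * U μ g j| ∂μ ≤ Er μ i n + Er μ j n := by
    rw [← integral_const_mul]
    refine (integral_mono ((hUT.sub hUj).abs.const_mul _) (i1.add i2) hpt).trans ?_
    simp only [Pi.add_apply]
    rw [integral_add i1 i2]
    have j1 : ∫ g, |((Sp π s g) (Pi.single i (n : ℤ)) : ℝ) - n * U μ (Sp π s g) i| ∂μ
        = Er μ i n :=
      int_comp hmp (f := fun g : Om d => |(g (Pi.single i (n : ℤ)) : ℝ) - n * U μ g i|)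
        (err_int h i _ n).aestronglyMeasurable
    have j2 := err_Z h j (σ * n)
    have j3 : (σ * (n : ℤ)).natAbs = n := by rw [Int.natAbs_mul, hσ2]; simp
    rw [j3] at j2
    rw [j1, j2]
  have e5 : Er μ i n / n + Er μ j n / n = (Er μ i n + Er μ j n) / n := by ring
  rw [e5, le_div_iff₀ hn', mul_comm]
  exact hmain

lemma measurable_Uv (μ : Measure (Om d)) : Measurable (fun g => U μ g) :=
  measurable_pi_lambda _ fun i => measurable_U μ i

/-- The law of the slope is invariant under signed permutations. -/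
theorem law_symm {μ : Measure (Om d)} (h : Nice μ)
    (hS : ∀ (π : Equiv.Perm (Fin d)) (s : Fin d → ℤˣ), μ.map (Sp π s) = μ)
    (π : Equiv.Perm (Fin d)) (s : Fin d → ℤˣ) :
    μ.map (fun g i => ((s i : ℤ) : ℝ) * U μ g (π i)) = μ.map (fun g => U μ g) := by
  set π' := π.symm with hπ'
  set s' : Fin d → ℤˣ := fun k => s (π.symm k) with hs'
  have h1 : ∀ i, (fun g => U μ (Sp π' s' g) i) =ᵐ[μ] fun g => ((s i : ℤ) : ℝ) * U μ g (π i) := by
    intro i
    have h2 := U_Sp h π' s' (hS π' s') i
    have e1 : π'.symm i = π i := by simp [hπ']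
    have e2 : s' (π i) = s i := by simp [hs']
    rw [e1, e2] at h2
    exact h2
  have h3 : (fun g => U μ (Sp π' s' g)) =ᵐ[μ] fun g i => ((s i : ℤ) : ℝ) * U μ g (π i) := by
    have h4 := ae_all_iff.2 h1
    filter_upwards [h4] with g hg
    funext i
    exact hg i
  rw [← Measure.map_congr h3]
  have h5 : (fun g => U μ (Sp π' s' g)) = (fun g => U μ g) ∘ Sp π' s' := rfl
  rw [h5, ← Measure.map_map (measurable_Uv μ) (measurable_Sp π' s'), hS π' s']

/-- No projection of the slope of the symmetrised law vanishes. -/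
theorem slope_ne {ν : Measure (Om d)} (hν : Nice ν) {a : ℝ} (ha : 0 < a)
    (hmean : ∀ x : V d, ∫ w, (w x : ℝ) ∂ν = a * x 0) (θ : Fin d → ℝ) (hθ : θ ≠ 0) :
    (symm ν).map (fun g => ∑ i, θ i * U (symm ν) g i) ≠ Measure.dirac 0 := by
  intro hcon
  have hμ : Nice (symm ν) := hν.symm
  have hμp := hμ.wstat.prob
  set μ := symm ν with hμdef
  have hZm : Measurable (fun g => ∑ i, θ i * U μ g i) :=
    Finset.measurable_sum _ fun i _ => (measurable_U μ i).const_mul _
  -- the projection vanishes almost surely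
  have h0 : ∀ᵐ g ∂μ, ∑ i, θ i * U μ g i = 0 := by
    have h1 : ∀ᵐ r ∂(μ.map (fun g => ∑ i, θ i * U μ g i)), r = 0 := by
      rw [hcon, ae_dirac_eq]
      exact rfl
    exact ae_of_ae_map hZm.aemeasurable h1
  obtain ⟨j, hj⟩ : ∃ j, θ j ≠ 0 := by
    by_contra hno
    push Not at hno
    exact hθ (funext hno)
  set π : Equiv.Perm (Fin d) := Equiv.swap 0 j with hπ
  set k0 : SG d := (π, fun _ => 1) with hk0
  set m : Measure (Om d) := ν.map (Sp k0.1 k0.2) with hm
  have hmN : Nice m := hν.map_Sp k0.1 k0.2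
  have hmp := hmN.wstat.prob
  have hcard0 : (Fintype.card (SG d) : ℝ≥0∞) ≠ 0 := by
    have : 0 < Fintype.card (SG d) := Fintype.card_pos
    exact_mod_cast this.ne'
  have hcardT : (Fintype.card (SG d) : ℝ≥0∞) ≠ ∞ := ENNReal.natCast_ne_top _
  have hle : m ≤ (Fintype.card (SG d) : ℝ≥0∞) • μ := by
    refine Measure.le_iff.2 fun t _ => ?_
    rw [Measure.smul_apply, smul_eq_mul, hμdef]
    unfold Pool.Agent.W833.BD.symm
    rw [avg_apply, ← mul_assoc, ENNReal.mul_inv_cancel hcard0 hcardT, one_mul]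
    exact Finset.single_le_sum (f := fun k : SG d => (ν.map (Sp k.1 k.2)) t)
      (fun _ _ => bot_le) (Finset.mem_univ k0)
  have hint : ∀ {f : Om d → ℝ}, Integrable f μ → Integrable f m := fun hf =>
    hf.of_measure_le_smul hcardT hle
  have hac : m ≪ μ := by
    refine Measure.AbsolutelyContinuous.mk fun t _ ht => ?_
    have h1 := hle t
    rw [Measure.smul_apply, ht, smul_zero] at h1
    exact le_antisymm h1 bot_le
  have hbd : ∀ {f : Om d → ℝ}, Integrable f μ → (∀ g, 0 ≤ f g) →
      ∫ g, f g ∂m ≤ Fintype.card (SG d) * ∫ g, f g ∂μ := by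
    intro f hf hf0
    have h1 := integral_mono_measure hle (Eventually.of_forall hf0) (hf.smul_measure hcardT)
    rw [integral_smul_measure, ENNReal.toReal_natCast, smul_eq_mul] at h1
    exact h1
  -- the means of the slope under the component
  have hU : ∀ i, ∫ g, U μ g i ∂m = if i = j then a else 0 := by
    intro i
    have hd1 : ∀ n : ℕ, 0 < n → |∫ g, U μ g i ∂m - (if i = j then a else 0)|
        ≤ Fintype.card (SG d) * (Er μ i n / n) := by
      intro n hn
      have hn' : (0 : ℝ) < n := by exact_mod_cast hn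
      have e1 : ∫ g, (g (Pi.single i (n : ℤ)) : ℝ) ∂m = n * (if i = j then a else 0) := by
        rw [hm, integral_map_Sp, hmean]
        have e2 : (sp k0.1 k0.2 (Pi.single i (n : ℤ) : V d)) 0 = if i = j then (n : ℤ) else 0 := by
          show ((1 : ℤˣ) : ℤ) * (Pi.single i (n : ℤ) : V d) (π 0) = _
          have e3 : π 0 = j := by simp [hπ]
          rw [e3, Pi.single_apply]
          by_cases hij : i = j
          · simp [hij]
          · have : j ≠ i := fun h => hij h.symm
            simp [hij, this]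
        rw [e2]
        split_ifs
        · push_cast; ring
        · simp
      have i1 : Integrable (fun g : Om d => (g (Pi.single i (n : ℤ)) : ℝ)) m := hmN.int _
      have i2 : Integrable (fun g => (n : ℝ) * U μ g i) m := (hint (integrable_U μ i)).const_mul _
      have h2 : n * (∫ g, U μ g i ∂m - (if i = j then a else 0))
          = - ∫ g, ((g (Pi.single i (n : ℤ)) : ℝ) - n * U μ g i) ∂m := by
        rw [integral_sub i1 i2, integral_const_mul, e1]
        ring
      have h3 : n * |∫ g, U μ g i ∂m - (if i = j then a else 0)|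
          ≤ Fintype.card (SG d) * Er μ i n := by
        have e4 : n * |∫ g, U μ g i ∂m - (if i = j then a else 0)|
            = |∫ g, ((g (Pi.single i (n : ℤ)) : ℝ) - n * U μ g i) ∂m| := by
          rw [← abs_neg (∫ g, ((g (Pi.single i (n : ℤ)) : ℝ) - n * U μ g i) ∂m), ← h2, abs_mul,
            abs_of_pos hn']
        rw [e4]
        refine (abs_integral_le_integral_abs).trans ?_
        exact hbd (err_int hμ i _ n) (fun g => abs_nonneg _)
      have e5 : (Fintype.card (SG d) : ℝ) * (Er μ i n / n)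
          = (Fintype.card (SG d) * Er μ i n) / n := by ring
      rw [e5, le_div_iff₀ hn', mul_comm]
      exact h3
    have hlim : Tendsto (fun n : ℕ => (Fintype.card (SG d) : ℝ) * (Er μ i n / n)) atTop (𝓝 0) := by
      simpa using (Er_tendsto hμ i).const_mul (Fintype.card (SG d) : ℝ)
    have h4 := le_zero_of hlim hd1
    have h5 := abs_nonpos_iff.1 h4
    linarith
  have h6 : ∫ g, ∑ i, θ i * U μ g i ∂m = θ j * a := by
    rw [integral_finsetSum _ fun i _ => (hint (integrable_U μ i)).const_mul _]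
    simp only [integral_const_mul, hU]
    rw [Finset.sum_eq_single j]
    · simp
    · intro i _ hi
      simp [hi]
    · intro hj'
      exact absurd (Finset.mem_univ j) hj'
  have h7 : ∫ g, ∑ i, θ i * U μ g i ∂m = 0 := by
    have h8 : (fun g => ∑ i, θ i * U μ g i) =ᵐ[m] fun _ => (0 : ℝ) := hac.ae_le h0
    rw [integral_congr_ae h8]
    simp
  rw [h7] at h6
  have := mul_ne_zero hj ha.ne'
  exact this h6.symm

end Pool.Agent.W723.BDL
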