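import Pool.Agent.W723.BDL.Erg
import Pool.Agent.W833.BD.Decor

/-! The random slope of a stationary law with integrable translation invariant increments. -/

namespace Pool.Agent.W723.BDL

set_option linter.unusedSectionVars false

open MeasureTheory Filter Topology Pool.Agent.W833.BD

variable {d : ℕ} [NeZero d]

/-- the Euclidean norm of a site -/
noncomputable def eu {d : ℕ} (x : V d) : ℝ := Real.sqrt (∑ i, (x i : ℝ) ^ 2)

lemma eu_nonneg (x : V d) : 0 ≤ eu x := Real.sqrt_nonneg _

lemma abs_le_eu (x : V d) (i : Fin d) : |(x i : ℝ)| ≤ eu x := by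
  rw [← Real.sqrt_sq_eq_abs]
  refine Real.sqrt_le_sqrt ?_
  exact Finset.single_le_sum (f := fun i => (x i : ℝ) ^ 2) (fun _ _ => sq_nonneg _)
    (Finset.mem_univ i)

lemma eu_single (i : Fin d) (n : ℤ) : eu (Pi.single i n : V d) = |(n : ℝ)| := by
  unfold eu
  rw [Finset.sum_eq_single i, Pi.single_eq_same, Real.sqrt_sq_eq_abs]
  · intro j _ hj
    rw [Pi.single_eq_of_ne hj]
    simp
  · intro hi
    exact absurd (Finset.mem_univ i) hi

/-- the unit step -/
noncomputable def e1 (i : Fin d) : V d := Pi.single i 1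

lemma nsmul_e1 (i : Fin d) (n : ℕ) : n • (e1 i) = (Pi.single i (n : ℤ) : V d) := by
  funext k
  unfold e1
  by_cases hk : k = i
  · subst hk
    simp
  · simp [hk]

/-- the first increment -/
noncomputable def ph (i : Fin d) (g : Om d) : ℝ := (g (e1 i) : ℝ) - g 0

/-- The random slope. -/
noncomputable def U (μ : Measure (Om d)) (g : Om d) (i : Fin d) : ℝ :=
  (μ[ph i | MeasurableSpace.invariants (Tz (e1 i))]) g

lemma measurable_eval (x : V d) : Measurable (fun g : Om d => (g x : ℝ)) :=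
  ((loc_eval x).comp (fun k : ℤ => (k : ℝ))).measurable

lemma measurable_U (μ : Measure (Om d)) (i : Fin d) : Measurable (fun g => U μ g i) :=
  (stronglyMeasurable_condExp.measurable).mono (MeasurableSpace.invariants_le _) le_rfl

lemma integrable_U (μ : Measure (Om d)) (i : Fin d) : Integrable (fun g => U μ g i) μ :=
  integrable_condExp

lemma iter_Tz (z : V d) (k : ℕ) : ∀ (g : Om d) (y y' : V d),
    (Tz z)^[k] g y - (Tz z)^[k] g y' = g (y + k • z) - g (y' + k • z) := by
  induction k with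
  | zero => intro g y y'; simp
  | succ k ih =>
    intro g y y'
    rw [Function.iterate_succ_apply, ih (Tz z g) y y']
    have e1 : y + (k + 1) • z = y + k • z + z := by rw [succ_nsmul, add_assoc]
    have e2 : y' + (k + 1) • z = y' + k • z + z := by rw [succ_nsmul, add_assoc]
    simp only [Tz, e1, e2]
    ring

lemma Am_eq (i : Fin d) (n : ℕ) (g : Om d) :
    Am (Tz (e1 i)) (ph i) n g = (n : ℝ)⁻¹ * ((g (Pi.single i (n : ℤ)) : ℝ) - g 0) := by
  unfold Am
  congr 1
  have h1 : ∀ k ∈ Finset.range n, ph i ((Tz (e1 i))^[k] g)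
      = (g ((k + 1) • e1 i) : ℝ) - g (k • e1 i) := by
    intro k _
    unfold ph
    have h2 := iter_Tz (e1 i) k g (e1 i) 0
    have h3 : e1 i + k • e1 i = (k + 1) • e1 i := by rw [succ_nsmul, add_comm]
    rw [h3, zero_add] at h2
    exact_mod_cast h2
  rw [Finset.sum_congr rfl h1, Finset.sum_range_sub (fun k : ℕ => (g (k • e1 i) : ℝ)), nsmul_e1]
  simp

variable {μ : Measure (Om d)}

lemma mp (h : Nice μ) (z : V d) : MeasurePreserving (Tz z) μ μ :=
  ⟨measurable_of_loc (loc_Tz z), h.trans z⟩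

/-- the error in one direction -/
noncomputable def Er (μ : Measure (Om d)) (i : Fin d) (n : ℕ) : ℝ :=
  ∫ g, |(g (Pi.single i (n : ℤ)) : ℝ) - n * U μ g i| ∂μ

lemma Er_nonneg (i : Fin d) (n : ℕ) : 0 ≤ Er μ i n := integral_nonneg fun g => abs_nonneg _

lemma ph_int (h : Nice μ) (i : Fin d) : Integrable (ph i) μ := (h.int _).sub (h.int _)

lemma Er_tendsto (h : Nice μ) (i : Fin d) : Tendsto (fun n : ℕ => Er μ i n / n) atTop (𝓝 0) := by
  have := h.wstat.prob
  have hm : Measurable (ph i : Om d → ℝ) := (measurable_eval _).sub (measurable_eval _)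
  have h1 := mean_erg (mp h (e1 i)) hm (ph_int h i)
  refine h1.congr' ?_
  filter_upwards [eventually_gt_atTop 0] with n hn
  have hn' : (0 : ℝ) < n := by exact_mod_cast hn
  unfold Er
  rw [← integral_div]
  refine integral_congr_ae ?_
  filter_upwards [h.wstat.zero] with g hg
  rw [Am_eq, hg]
  have h2 : ((n : ℝ)⁻¹ * ((g (Pi.single i (n : ℤ)) : ℝ) - ((0 : ℤ) : ℝ)) - U μ g i)
      = ((g (Pi.single i (n : ℤ)) : ℝ) - n * U μ g i) / n := by
    push_cast
    field_simp
    ring
  show |(n : ℝ)⁻¹ * ((g (Pi.single i (n : ℤ)) : ℝ) - ((0 : ℤ) : ℝ)) - U μ g i| = _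
  rw [h2, abs_div, abs_of_pos hn']

lemma err_int (h : Nice μ) (i : Fin d) (x : V d) (c : ℝ) :
    Integrable (fun g : Om d => |(g x : ℝ) - c * U μ g i|) μ :=
  ((h.int x).sub ((integrable_U μ i).const_mul c)).abs

/-- a nonnegative number below a sequence tending to zero -/
lemma le_zero_of {A : ℝ} {a : ℕ → ℝ} (ha : Tendsto a atTop (𝓝 0))
    (hA : ∀ n : ℕ, 0 < n → A ≤ a n) : A ≤ 0 :=
  ge_of_tendsto ha ((eventually_gt_atTop 0).mono fun n hn => hA n hn)

lemma ae_eq_of_int {f g : Om d → ℝ} (hf : Integrable f μ) (hg : Integrable g μ)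
    (h : ∫ x, |f x - g x| ∂μ ≤ 0) : f =ᵐ[μ] g := by
  have h1 : ∫ x, |f x - g x| ∂μ = 0 := le_antisymm h (integral_nonneg fun x => abs_nonneg _)
  have hi : Integrable (fun x => |f x - g x|) μ := (hf.sub hg).abs
  rw [integral_eq_zero_iff_of_nonneg (fun x => abs_nonneg _) hi] at h1
  filter_upwards [h1] with x hx
  have : |f x - g x| = 0 := hx
  rw [abs_eq_zero] at this
  linarith

/-- The slope is invariant under all translations. -/
lemma U_inv (h : Nice μ) (i : Fin d) (y : V d) :
    (fun g => U μ (Tz y g) i) =ᵐ[μ] fun g => U μ g i := by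
  have hp := h.wstat.prob
  have hUT : Integrable (fun g => U μ (Tz y g) i) μ :=
    integrable_comp (mp h y) (integrable_U μ i)
  refine ae_eq_of_int hUT (integrable_U μ i) ?_
  set D : ℝ := ∫ g, |(g y : ℝ)| ∂μ with hD
  have hlim : Tendsto (fun n : ℕ => Er μ i n / n + (2 * D) / n + Er μ i n / n) atTop (𝓝 0) := by
    have h1 := ((Er_tendsto h i).add (tendsto_const_div_atTop_nhds_zero_nat (2 * D))).add
      (Er_tendsto h i)
    simpa using h1
  refine le_zero_of hlim fun n hn => ?_
  have hn' : (0 : ℝ) < n := by exact_mod_cast hn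
  set s : V d := Pi.single i (n : ℤ) with hs
  have i1 : Integrable (fun g => |((Tz y g) s : ℝ) - n * U μ (Tz y g) i|) μ :=
    integrable_comp (mp h y) (err_int h i s n)
  have i2 : Integrable (fun g => |((Tz s g) y : ℝ)|) μ :=
    integrable_comp (mp h s) (h.int y).abs
  have i3 : Integrable (fun g : Om d => |(g y : ℝ)|) μ := (h.int y).abs
  have i4 := err_int h i s n
  have hpt : ∀ g : Om d, n * |U μ (Tz y g) i - U μ g i|
      ≤ |((Tz y g) s : ℝ) - n * U μ (Tz y g) i| + |((Tz s g) y : ℝ)| + |(g y : ℝ)|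
        + |(g s : ℝ) - n * U μ g i| := by
    intro g
    have e1 : ((Tz y g) s : ℝ) = g (s + y) - g y := by simp [Tz]
    have e2 : ((Tz s g) y : ℝ) = g (s + y) - g s := by simp [Tz, add_comm]
    rw [e1, e2]
    have e3 : (n : ℝ) * |U μ (Tz y g) i - U μ g i| = |n * U μ (Tz y g) i - n * U μ g i| := by
      rw [← mul_sub, abs_mul, abs_of_pos hn']
    rw [e3]
    have e4 : (n : ℝ) * U μ (Tz y g) i - n * U μ g i
        = -(((g (s + y) : ℝ) - g y) - n * U μ (Tz y g) i) + ((g (s + y) : ℝ) - g s)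
          - (g y : ℝ) + ((g s : ℝ) - n * U μ g i) := by ring
    rw [e4]
    refine (abs_add_le _ _).trans (add_le_add ?_ le_rfl)
    refine (abs_sub _ _).trans (add_le_add ?_ le_rfl)
    refine (abs_add_le _ _).trans (add_le_add ?_ le_rfl)
    rw [abs_neg]
  have hmain : n * ∫ g, |U μ (Tz y g) i - U μ g i| ∂μ ≤ Er μ i n + D + D + Er μ i n := by
    rw [← integral_const_mul]
    have i12 : Integrable (fun g => |((Tz y g) s : ℝ) - n * U μ (Tz y g) i| + |((Tz s g) y : ℝ)|)
      μ := i1.add i2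
    have i123 : Integrable (fun g => |((Tz y g) s : ℝ) - n * U μ (Tz y g) i| + |((Tz s g) y : ℝ)|
      + |(g y : ℝ)|) μ := i12.add i3
    refine (integral_mono ((hUT.sub (integrable_U μ i)).abs.const_mul _) (i123.add i4) hpt).trans ?_
    simp only [Pi.add_apply]
    rw [integral_add i123 i4, integral_add i12 i3, integral_add i1 i2]
    have j1 : ∫ g, |((Tz y g) s : ℝ) - n * U μ (Tz y g) i| ∂μ = Er μ i n :=
      int_comp (mp h y) (f := fun g : Om d => |(g s : ℝ) - n * U μ g i|)
        (err_int h i s n).aestronglyMeasurable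
    have j2 : ∫ g, |((Tz s g) y : ℝ)| ∂μ = D :=
      int_comp (mp h s) (f := fun g : Om d => |(g y : ℝ)|) (h.int y).abs.aestronglyMeasurable
    rw [j1, j2]
    exact le_rfl
  have e5 : Er μ i n / n + (2 * D) / n + Er μ i n / n = (Er μ i n + D + D + Er μ i n) / n := by
    ring
  rw [e5, le_div_iff₀ hn', mul_comm]
  exact hmain

/-- the error in one direction, both signs -/
lemma err_Z (h : Nice μ) (i : Fin d) (k : ℤ) :
    ∫ g, |(g (Pi.single i k) : ℝ) - k * U μ g i| ∂μ = Er μ i k.natAbs := by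
  rcases Int.natAbs_eq k with hk | hk
  · unfold Er
    rw [← hk]
    congr 1
    funext g
    have : ((k.natAbs : ℕ) : ℝ) = (k : ℝ) := by
      have h0 : 0 ≤ k := by omega
      rw [Nat.cast_natAbs, abs_of_nonneg h0]
    rw [this]
  · set n := k.natAbs with hn
    set z : V d := Pi.single i k with hz
    have h1 : ∫ g, |((Tz z g) (Pi.single i (n : ℤ)) : ℝ) - n * U μ (Tz z g) i| ∂μ = Er μ i n :=
      int_comp (mp h z) (f := fun g : Om d => |(g (Pi.single i (n : ℤ)) : ℝ) - n * U μ g i|)
        (err_int h i _ n).aestronglyMeasurable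
    rw [← h1]
    refine integral_congr_ae ?_
    filter_upwards [U_inv h i z, h.wstat.zero] with g hg hg0
    have e1 : (Tz z g) (Pi.single i (n : ℤ)) = - g z := by
      have : (Pi.single i (n : ℤ) : V d) + z = 0 := by
        rw [hz, hk, ← Pi.single_add]
        simp
      simp [Tz, this, hg0]
    have hg' : U μ (Tz z g) i = U μ g i := hg
    have e2 : (k : ℝ) = -(n : ℝ) := by rw [hk]; push_cast; rfl
    rw [e1, hg', e2]
    push_cast
    rw [← abs_neg]
    congr 1
    ring

lemma err_Ty (h : Nice μ) (i : Fin d) (y : V d) (k : ℤ) :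
    ∫ g, |((Tz y g) (Pi.single i k) : ℝ) - k * U μ g i| ∂μ = Er μ i k.natAbs := by
  rw [← err_Z h i k]
  have h1 : ∫ g, |((Tz y g) (Pi.single i k) : ℝ) - k * U μ (Tz y g) i| ∂μ
      = ∫ g, |(g (Pi.single i k) : ℝ) - k * U μ g i| ∂μ :=
    int_comp (mp h y) (f := fun g : Om d => |(g (Pi.single i k) : ℝ) - k * U μ g i|)
      (err_int h i _ k).aestronglyMeasurable
  rw [← h1]
  refine integral_congr_ae ?_
  filter_upwards [U_inv h i y] with g hg
  have hg' : U μ (Tz y g) i = U μ g i := hg
  rw [hg']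

lemma err_sum (h : Nice μ) (x : V d) (S : Finset (Fin d)) :
    ∫ g, |(g (∑ i ∈ S, Pi.single i (x i)) : ℝ) - ∑ i ∈ S, (x i : ℝ) * U μ g i| ∂μ
      ≤ ∑ i ∈ S, Er μ i (x i).natAbs := by
  classical
  induction S using Finset.induction_on with
  | empty =>
    simp only [Finset.sum_empty, sub_zero]
    refine le_of_eq ?_
    have : ∫ g : Om d, |(g 0 : ℝ)| ∂μ = ∫ _, (0 : ℝ) ∂μ := by
      refine integral_congr_ae ?_
      filter_upwards [h.wstat.zero] with g hg
      rw [hg]
      simp
    rw [this]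
    simp
  | insert i S hi ih =>
    set y : V d := ∑ i ∈ S, Pi.single i (x i) with hy
    have e1 : ∀ g : Om d, (g (∑ j ∈ insert i S, Pi.single j (x j)) : ℝ)
        = g y + (Tz y g) (Pi.single i (x i)) := by
      intro g
      rw [Finset.sum_insert hi]
      simp only [Tz]
      push_cast
      rw [← hy]
      ring
    have hsumi : Integrable (fun g => ∑ i ∈ S, (x i : ℝ) * U μ g i) μ :=
      integrable_finsetSum _ fun j _ => (integrable_U μ j).const_mul _
    have i1 : Integrable (fun g : Om d => |(g y : ℝ) - ∑ i ∈ S, (x i : ℝ) * U μ g i|) μ :=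
      ((h.int y).sub hsumi).abs
    have iT : Integrable (fun g : Om d => ((Tz y g) (Pi.single i (x i)) : ℝ)) μ :=
      integrable_comp (mp h y) (h.int _)
    have i2 : Integrable (fun g => |((Tz y g) (Pi.single i (x i)) : ℝ) - x i * U μ g i|) μ :=
      (iT.sub ((integrable_U μ i).const_mul _)).abs
    have hsumi' : Integrable (fun g => ∑ i ∈ insert i S, (x i : ℝ) * U μ g i) μ :=
      integrable_finsetSum _ fun j _ => (integrable_U μ j).const_mul _
    have i0 : Integrable (fun g : Om d => |(g (∑ j ∈ insert i S, Pi.single j (x j)) : ℝ)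
        - ∑ i ∈ insert i S, (x i : ℝ) * U μ g i|) μ := ((h.int _).sub hsumi').abs
    calc _ ≤ ∫ g, (|(g y : ℝ) - ∑ i ∈ S, (x i : ℝ) * U μ g i|
          + |((Tz y g) (Pi.single i (x i)) : ℝ) - x i * U μ g i|) ∂μ := by
          refine integral_mono i0 (i1.add i2) fun g => ?_
          show |(g (∑ j ∈ insert i S, Pi.single j (x j)) : ℝ)
            - ∑ i ∈ insert i S, (x i : ℝ) * U μ g i| ≤ _
          rw [e1, Finset.sum_insert hi]
          have := abs_add_le ((g y : ℝ) - ∑ i ∈ S, (x i : ℝ) * U μ g i)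
            (((Tz y g) (Pi.single i (x i)) : ℝ) - x i * U μ g i)
          refine le_trans (le_of_eq ?_) this
          congr 1
          ring
      _ = _ := integral_add i1 i2
      _ ≤ _ := by
          rw [Finset.sum_insert hi, err_Ty h i y (x i)]
          linarith

/-- The law of large numbers with a random slope. -/
theorem lln (h : Nice μ) {ε : ℝ} (hε : 0 < ε) : ∃ C : ℝ, ∀ x : V d,
    ∫ g, |(g x : ℝ) - ∑ i, (x i : ℝ) * U μ g i| ∂μ ≤ ε * eu x + C := by
  have hd : (0 : ℝ) < d := by exact_mod_cast Nat.pos_of_ne_zero (NeZero.ne d)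
  set δ : ℝ := ε / d with hδ
  have hδ0 : 0 < δ := by positivity
  have h1 : ∀ i : Fin d, ∃ C : ℝ, ∀ n : ℕ, Er μ i n ≤ δ * n + C := by
    intro i
    obtain ⟨N, hN⟩ := eventually_atTop.1 ((Er_tendsto h i).eventually (gt_mem_nhds hδ0))
    refine ⟨∑ k ∈ Finset.range (N + 1), Er μ i k, fun n => ?_⟩
    have hs : 0 ≤ ∑ k ∈ Finset.range (N + 1), Er μ i k :=
      Finset.sum_nonneg fun k _ => Er_nonneg i k
    by_cases hn : n < N + 1
    · have h2 : Er μ i n ≤ ∑ k ∈ Finset.range (N + 1), Er μ i k :=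
        Finset.single_le_sum (f := fun k => Er μ i k) (fun k _ => Er_nonneg i k)
          (Finset.mem_range.2 hn)
      have h3 : 0 ≤ δ * n := by positivity
      linarith
    · have hn0 : (0 : ℝ) < n := by
        have : 0 < n := by omega
        exact_mod_cast this
      have h2 := hN n (by omega)
      rw [div_lt_iff₀ hn0] at h2
      linarith
  choose C hC using h1
  refine ⟨∑ i, C i, fun x => ?_⟩
  have h2 := err_sum h x Finset.univ
  have e0 : (∑ i, Pi.single i (x i) : V d) = x := Finset.univ_sum_single x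
  rw [e0] at h2
  refine h2.trans ?_
  have h3 : ∀ i ∈ Finset.univ, Er μ i (x i).natAbs ≤ δ * eu x + C i := by
    intro i _
    refine (hC i _).trans ?_
    have : (((x i).natAbs : ℕ) : ℝ) = |(x i : ℝ)| := by
      rw [Nat.cast_natAbs, Int.cast_abs]
    rw [this]
    have := mul_le_mul_of_nonneg_left (abs_le_eu x i) hδ0.le
    linarith
  refine (Finset.sum_le_sum h3).trans (le_of_eq ?_)
  rw [Finset.sum_add_distrib, Finset.sum_const, Finset.card_univ, Fintype.card_fin, nsmul_eq_mul,
    hδ]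
  field_simp

/-- Convergence in law along sequences with a direction. -/
theorem conv_law (h : Nice μ) [IsProbabilityMeasure μ] (x : ℕ → V d) (θ : Fin d → ℝ)
    (hx : Tendsto (fun n => eu (x n)) atTop atTop)
    (hθ : ∀ i, Tendsto (fun n => (x n i : ℝ) / eu (x n)) atTop (𝓝 (θ i))) :
    TendstoInDistribution (fun (n : ℕ) (g : Om d) => (g (x n) : ℝ) / eu (x n)) atTop
      (fun g => ∑ i, θ i * U μ g i) (fun _ => μ) μ := by
  have hXm : ∀ n, Measurable (fun g : Om d => (g (x n) : ℝ) / eu (x n)) := fun n =>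
    (measurable_eval _).div_const _
  have hZm : Measurable (fun g => ∑ i, θ i * U μ g i) :=
    Finset.measurable_sum _ fun i _ => (measurable_U μ i).const_mul _
  refine TendstoInMeasure.tendstoInDistribution ?_ (fun n => (hXm n).aemeasurable)
  have hXi : ∀ n, Integrable (fun g : Om d => (g (x n) : ℝ) / eu (x n)) μ := fun n =>
    (h.int _).div_const _
  have hZi : Integrable (fun g => ∑ i, θ i * U μ g i) μ :=
    integrable_finsetSum _ fun i _ => (integrable_U μ i).const_mul _
  -- convergence in mean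
  have hL : Tendsto (fun n => ∫ g, |(g (x n) : ℝ) / eu (x n) - ∑ i, θ i * U μ g i| ∂μ) atTop
      (𝓝 0) := by
    rw [Metric.tendsto_atTop]
    intro ε hε
    obtain ⟨C, hC⟩ := lln h (show (0 : ℝ) < ε / 4 by positivity)
    have hs : Tendsto (fun n => ∑ i, |(x n i : ℝ) / eu (x n) - θ i| * ∫ g, |U μ g i| ∂μ) atTop
        (𝓝 0) := by
      have h1 : Tendsto (fun n => ∑ i, |(x n i : ℝ) / eu (x n) - θ i| * ∫ g, |U μ g i| ∂μ) atTop
          (𝓝 (∑ i : Fin d, |θ i - θ i| * ∫ g, |U μ g i| ∂μ)) :=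
        tendsto_finsetSum _ fun i _ => (((hθ i).sub_const (θ i)).abs).mul_const _
      simpa using h1
    have he1 := hs.eventually (gt_mem_nhds (show (0 : ℝ) < ε / 4 by positivity))
    have he2 := hx.eventually_gt_atTop (max 1 (4 * |C| / ε))
    obtain ⟨N, hN⟩ := eventually_atTop.1 (he1.and he2)
    refine ⟨N, fun n hn => ?_⟩
    obtain ⟨hn1, hn2⟩ := hN n hn
    have hn3 : 1 < eu (x n) := lt_of_le_of_lt (le_max_left _ _) hn2
    have hn4 : 4 * |C| / ε < eu (x n) := lt_of_le_of_lt (le_max_right _ _) hn2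
    have hpos : 0 < eu (x n) := by linarith
    rw [Real.dist_eq, sub_zero, abs_of_nonneg (integral_nonneg fun x => abs_nonneg _)]
    have i1 : Integrable (fun g : Om d => |(g (x n) : ℝ) - ∑ i, (x n i : ℝ) * U μ g i|
        / eu (x n)) μ :=
      (((h.int _).sub (integrable_finsetSum _ fun i _ =>
        (integrable_U μ i).const_mul _)).abs).div_const _
    have i2 : ∀ i ∈ (Finset.univ : Finset (Fin d)),
        Integrable (fun g => |(x n i : ℝ) / eu (x n) - θ i| * |U μ g i|) μ :=
      fun i _ => (integrable_U μ i).abs.const_mul _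
    have i3 : Integrable (fun g => ∑ i, |(x n i : ℝ) / eu (x n) - θ i| * |U μ g i|) μ :=
      integrable_finsetSum _ i2
    have hle : ∫ g, |(g (x n) : ℝ) / eu (x n) - ∑ i, θ i * U μ g i| ∂μ
        ≤ ∫ g, (|(g (x n) : ℝ) - ∑ i, (x n i : ℝ) * U μ g i| / eu (x n)
          + ∑ i, |(x n i : ℝ) / eu (x n) - θ i| * |U μ g i|) ∂μ := by
      refine integral_mono ((hXi n).sub hZi).abs (i1.add i3) fun g => ?_
      show |(g (x n) : ℝ) / eu (x n) - ∑ i, θ i * U μ g i| ≤ _
      have e1 : (g (x n) : ℝ) / eu (x n) - ∑ i, θ i * U μ g i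
          = ((g (x n) : ℝ) - ∑ i, (x n i : ℝ) * U μ g i) / eu (x n)
            + ∑ i, ((x n i : ℝ) / eu (x n) - θ i) * U μ g i := by
        have e2 : ∑ i, ((x n i : ℝ) / eu (x n) - θ i) * U μ g i
            = (∑ i, (x n i : ℝ) * U μ g i) / eu (x n) - ∑ i, θ i * U μ g i := by
          rw [Finset.sum_div, ← Finset.sum_sub_distrib]
          refine Finset.sum_congr rfl fun i _ => ?_
          ring
        rw [e2]
        ring
      rw [e1]
      refine (abs_add_le _ _).trans (add_le_add ?_ ?_)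
      · rw [abs_div, abs_of_pos hpos]
      · refine (Finset.abs_sum_le_sum_abs _ _).trans (le_of_eq ?_)
        exact Finset.sum_congr rfl fun i _ => abs_mul _ _
    refine lt_of_le_of_lt hle ?_
    rw [integral_add i1 i3, integral_div, integral_finsetSum _ i2]
    simp only [integral_const_mul]
    have h5 : (∫ g, |(g (x n) : ℝ) - ∑ i, (x n i : ℝ) * U μ g i| ∂μ) / eu (x n) ≤ ε / 2 := by
      rw [div_le_iff₀ hpos]
      refine (hC (x n)).trans ?_
      have h6 : C ≤ ε / 4 * eu (x n) := by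
        rw [div_lt_iff₀ hε] at hn4
        have := le_abs_self C
        nlinarith
      nlinarith
    linarith
  refine tendstoInMeasure_of_tendsto_eLpNorm (p := 1) one_ne_zero
    (fun n => (hXm n).aestronglyMeasurable) hZm.aestronglyMeasurable ?_
  have h7 : ∀ n, eLpNorm ((fun g : Om d => (g (x n) : ℝ) / eu (x n))
      - fun g => ∑ i, θ i * U μ g i) 1 μ
      = ENNReal.ofReal (∫ g, |(g (x n) : ℝ) / eu (x n) - ∑ i, θ i * U μ g i| ∂μ) := by
    intro n
    rw [eLpNorm_one_eq_lintegral_enorm]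
    have := ofReal_integral_norm_eq_lintegral_enorm ((hXi n).sub hZi)
    rw [← this]
    rfl
  simp only [h7]
  have := ENNReal.tendsto_ofReal hL
  simpa using this

end Pool.Agent.W723.BDL
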